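import Pool.Agent.R489.HB.Stm

set_option autoImplicit false

namespace Pool.Agent.R28.HB

open Finset Pool.Agent.R489.HB

/-- HB-LOW -/
theorem LOW (h3 : S_DG3) (hE : S_EUL) : S_LOW := by
  intro W _ Φ T hΦ hT
  obtain ⟨h4, hdeg, hsum⟩ := h3 W Φ hΦ
  have heul := hE W Φ hΦ
  by_contra hcon
  push Not at hcon
  have hT3 := hΦ.three T hT
  have hTsub : T ⊆ vts Φ := fun x hx => Finset.mem_biUnion.2 ⟨T, hT, hx⟩
  have h1 : ∑ v ∈ T, 3 ≤ ∑ v ∈ T, dg Φ v :=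
    Finset.sum_le_sum fun v hv => (hdeg v (hTsub hv)).1
  have h2 : ∑ v ∈ vts Φ \ T, 6 ≤ ∑ v ∈ vts Φ \ T, dg Φ v :=
    Finset.sum_le_sum fun v hv => by
      rw [Finset.mem_sdiff] at hv
      exact hcon v hv.1 hv.2
  have h5 := Finset.sum_sdiff (f := dg Φ) hTsub
  rw [Finset.sum_const, smul_eq_mul, hT3] at h1
  rw [Finset.sum_const, smul_eq_mul, Finset.card_sdiff_of_subset hTsub, hT3] at h2
  omega

end Pool.Agent.R28.HB
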